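import Pool.Agent.W500.FL.Stm

/-!
# Project FL: the Jacobi symbol modulo a squarefree polynomial takes both signs
-/

set_option autoImplicit false

namespace Pool.Agent.W352.FL.NT

open Polynomial Pool.Agent.W500.FL

theorem res_norm {K : Type} [Field K] [Fintype K] (P : K[X]) (hP : P.Monic)
    [hI : Fact (Irreducible P)] (y : K[X]) :
    resultant P y = Algebra.norm K (AdjoinRoot.mk P y) := by
  have hP0 : P ≠ 0 := hP.ne_zero
  set pb := AdjoinRoot.powerBasis hP0 with hpb
  have hfd : FiniteDimensional K (AdjoinRoot P) := pb.finite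
  have hmin : minpoly K pb.gen = P := AdjoinRoot.minpoly_powerBasis_gen_of_monic hP
  have hgen : pb.gen = AdjoinRoot.root P := AdjoinRoot.powerBasis_gen hP0
  apply (algebraMap K (AlgebraicClosure K)).injective
  rw [Algebra.norm_eq_prod_embeddings K (AlgebraicClosure K)]
  have h1 : algebraMap K (AlgebraicClosure K) (resultant P y) =
      ((P.aroots (AlgebraicClosure K)).map (fun a => aeval a y)).prod := by
    rw [← resultant_map_map]
    have h2 := resultant_eq_prod_eval (P.map (algebraMap K (AlgebraicClosure K)))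
      (y.map (algebraMap K (AlgebraicClosure K))) y.natDegree natDegree_map_le
      (IsAlgClosed.splits _)
    rw [natDegree_map] at h2
    rw [h2, (hP.map _).leadingCoeff, one_pow, one_mul, aroots_def]
    congr 1
    refine Multiset.map_congr rfl fun a _ => ?_
    rw [eval_map_algebraMap]
  rw [h1]
  have h3 : ∀ σ : AdjoinRoot P →ₐ[K] AlgebraicClosure K,
      σ (AdjoinRoot.mk P y) = aeval (σ pb.gen) y := by
    intro σ
    rw [hgen, ← AdjoinRoot.aeval_eq, Polynomial.aeval_algHom_apply]
  rw [Finset.prod_congr rfl (fun σ _ => h3 σ)]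
  have hnd : (P.aroots (AlgebraicClosure K)).Nodup := by
    have hsep : P.Separable := PerfectField.separable_of_irreducible hI.out
    exact nodup_roots hsep.map
  classical
  have h4 : ∏ σ : AdjoinRoot P →ₐ[K] AlgebraicClosure K, aeval (σ pb.gen) y =
      ∏ a ∈ (P.aroots (AlgebraicClosure K)).toFinset, aeval a y := by
    refine Finset.prod_bij (fun σ _ => σ pb.gen) ?_ ?_ ?_ ?_
    · intro σ _
      rw [Multiset.mem_toFinset, mem_aroots]
      refine ⟨hP0, ?_⟩
      rw [aeval_algHom_apply, hgen, AdjoinRoot.aeval_eq, AdjoinRoot.mk_self, map_zero]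
    · intro σ _ σ' _ h
      exact pb.algHom_ext h
    · intro a ha
      rw [Multiset.mem_toFinset, mem_aroots] at ha
      refine ⟨pb.lift a (by rw [hmin]; exact ha.2), Finset.mem_univ _, ?_⟩
      exact pb.lift_gen a _
    · intro σ _
      rfl
  rw [h4, Finset.prod_eq_multiset_prod, Multiset.toFinset_val, Multiset.dedup_eq_self.mpr hnd]

theorem irr_neg {K : Type} [Field K] [Fintype K] [DecidableEq K] (hK : ringChar K ≠ 2)
    (P : K[X]) (hP : P.Monic) (hI : Irreducible P) : ∃ y : K[X], jac P y = -1 := by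
  have : Fact (Irreducible P) := ⟨hI⟩
  have hfd : FiniteDimensional K (AdjoinRoot P) := (AdjoinRoot.powerBasis hP.ne_zero).finite
  have hfin : Finite (AdjoinRoot P) := Module.finite_of_finite K
  obtain ⟨c, hc⟩ := FiniteField.exists_nonsquare hK
  obtain ⟨x, hx⟩ := FiniteField.norm_surjective K (AdjoinRoot P) c
  obtain ⟨y, rfl⟩ := AdjoinRoot.mk_surjective x
  refine ⟨y, ?_⟩
  unfold jac
  rw [res_norm P hP, hx]
  exact quadraticChar_neg_one_iff_not_isSquare.2 hc

theorem main : S_J → S_NT := by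
  intro hJ K _ _ _ hK ρ hρ hsq hdeg t ht
  obtain ⟨-, j2, j3, j4, -, -, -⟩ := hJ K
  have hone : ∀ f : K[X], f.Monic → jac f 1 = 1 := by
    intro f hf
    rw [← map_one C, j4 f 1 hf]
    simp
  rcases ht with rfl | rfl
  · exact ⟨1, hone ρ hρ⟩
  · have hu : ¬ IsUnit ρ := by
      intro h
      have := natDegree_eq_zero_of_isUnit h
      omega
    obtain ⟨P, hP, hI, τ, rfl⟩ := exists_monic_irreducible_factor ρ hu
    have hτ : τ.Monic := hP.of_mul_monic_left hρ
    have hco : IsCoprime P τ := by
      rw [hI.coprime_iff_not_dvd]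
      rintro ⟨s, rfl⟩
      exact hI.not_isUnit (hsq P ⟨s, by ring⟩)
    obtain ⟨y, hy⟩ := irr_neg hK P hP hI
    obtain ⟨u, v, huv⟩ := hco
    refine ⟨y * (v * τ) + u * P, ?_⟩
    rw [j2 P τ _ hP hτ, j3 P _ y hP ⟨u - y * u, by linear_combination y * huv⟩,
      j3 τ _ 1 hτ ⟨y * v - v, by linear_combination huv⟩, hy, hone τ hτ, mul_one]

end Pool.Agent.W352.FL.NT
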